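import Pool.Agent.helper58.BR.SpecN
import Pool.Agent.helper59.FI.Base

/-!
# Row brn:CIN (MP_baa4d7_al, project BR, block N): the numbers `ci`
-/

set_option autoImplicit false

namespace Pool.Agent.BR

open Pool.Agent.helper58.DC Pool.Agent.DI Pool.Agent.GR Pool.Agent.OB Pool.Agent.DR Pool.Agent.FI Pool.Agent.FI3 Pool.Agent.FI4 Pool.Agent.LE

theorem CIN : CIN_stmt := by
  intro p M hp G _ _ D θ hcom hD
  have hne : (Nat.card (cz D) : ℂ) ≠ 0 := by exact_mod_cast Nat.card_pos.ne'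
  have hle : ∀ u ∈ D, cz D ≤ Cz (TT M D θ) u := by
    intro u hu c hc
    rw [mem_Cz]
    refine ⟨cz_le_TT hc, ?_⟩
    rw [Subgroup.mem_centralizer_iff] at hc
    exact hc u hu
  have hk : ∀ u ∈ D, ci M D θ u = (((cz D).relIndex (Cz (TT M D θ) u) : ℕ) : ℂ) := by
    intro u hu
    unfold ci
    rw [div_eq_iff hne]
    have h1 := Subgroup.index_mul_card ((cz D).subgroupOf (Cz (TT M D θ) u))
    have h2 : Nat.card ((cz D).subgroupOf (Cz (TT M D θ) u)) = Nat.card (cz D) :=
      Nat.card_congr (Subgroup.subgroupOfEquivOfLe (hle u hu)).toEquiv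
    rw [h2] at h1
    have h3 : (cz D).relIndex (Cz (TT M D θ) u) * Nat.card (cz D) = Nat.card (Cz (TT M D θ) u) := h1
    exact_mod_cast h3.symm
  refine ⟨?_, fun u hu => ⟨⟨_, hk u hu⟩, fun s hs => ?_⟩⟩
  · rw [hk 1 D.one_mem]
    unfold iI
    have h1 : Cz (TT M D θ) 1 = TT M D θ := by
      ext x
      rw [mem_Cz, one_mul, mul_one]
      exact ⟨fun h => h.1, fun h => ⟨h, rfl⟩⟩
    rw [h1]
  · have h1 : Cz (TT M D θ) (u ^ s) = Cz (TT M D θ) u := by
      obtain ⟨k, hk⟩ := hD ⟨u, hu⟩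
      have hk' : u ^ p ^ k = 1 := by simpa using congrArg Subtype.val hk
      have hco : Nat.Coprime s (p ^ k) := Nat.Coprime.pow_right k ((Nat.Prime.coprime_iff_not_dvd hp).2 hs).symm
      obtain ⟨r, hr⟩ := exists_pow_eq_self_of_coprime (x := u) (hco.coprime_dvd_right (orderOf_dvd_of_pow_eq_one hk'))
      ext x
      rw [mem_Cz, mem_Cz]
      refine and_congr_right fun _ => ⟨fun h => ?_, fun h => ?_⟩
      · have h2 : Commute (u ^ s) x := h
        have h3 := h2.pow_left r
        rw [hr] at h3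
        exact h3
      · have h2 : Commute u x := h
        exact h2.pow_left s
    unfold ci
    rw [h1]

end Pool.Agent.BR
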