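import Pool.Agent.helper58.BR.SpecN
import Pool.Agent.helper59.FI.Base

/-!
# Row brn:PPX (MP_baa4d7_al, project BR, block N): expansion of the contribution
-/

set_option autoImplicit false

namespace Pool.Agent.BR

open Pool.Agent.helper58.DC Pool.Agent.DI Pool.Agent.GR Pool.Agent.OB Pool.Agent.DR Pool.Agent.FI Pool.Agent.FI3 Pool.Agent.FI4 Pool.Agent.LE

/-- the idempotent of a set of characters of `K` cuts out these characters -/
theorem PPX_ev (hEVM : EVM_stmt) (hIDM : IDM_stmt) (hQRS : QRS_stmt) {G : Type} [Group G] [Finite G] (K : Subgroup G) (S : Set (G → ℂ))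
    (hS : S ⊆ IrrOn K) (hSf : S.Finite) {ψ : G → ℂ} (hψ : ψ ∈ IrrOn (⊤ : Subgroup G)) {g : G} (hg : g ∈ K) :
    ev ψ (eS K S) g = ∑ η ∈ hSf.toFinset, mt K ψ η * η g := by
  classical
  have := Fintype.ofFinite G
  have hI : (IrrOn K).Finite := IrrOn_fin K
  obtain ⟨hCF, hcc, -, -⟩ := hIDM G K S hS
  obtain ⟨-, hres⟩ := hQRS G ⊤ K le_top ψ hψ
  have h1 : ∀ x, eS K S x * ψ (g * x) = ∑ η ∈ hI.toFinset, mt K ψ η * (eS K S x * η (g * x)) := by
    intro x
    by_cases hx : x ∈ K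
    · rw [hres (g * x) (K.mul_mem hg hx), finsum_mem_eq_finite_toFinset_sum _ hI, Finset.mul_sum]
      refine Finset.sum_congr rfl fun η _ => ?_
      ring
    · rw [hCF.2 x hx, zero_mul]
      refine (Finset.sum_eq_zero fun η _ => ?_).symm
      rw [zero_mul, mul_zero]
  have h2 : ev ψ (eS K S) g = ∑ η ∈ hI.toFinset, mt K ψ η * ev η (eS K S) g := by
    unfold ev
    rw [finsum_eq_sum_of_fintype, Finset.sum_congr rfl (fun x _ => h1 x), Finset.sum_comm]
    refine Finset.sum_congr rfl fun η _ => ?_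
    rw [finsum_eq_sum_of_fintype, Finset.mul_sum]
  have h3 : ∀ η ∈ hI.toFinset, mt K ψ η * ev η (eS K S) g = if η ∈ S then mt K ψ η * η g else 0 := by
    intro η hη
    rw [Set.Finite.mem_toFinset] at hη
    rw [(hEVM G K η hη _ hCF g hg).2, hcc η hη]
    by_cases h : η ∈ S
    · rw [if_pos h, if_pos h, one_mul]
    · rw [if_neg h, if_neg h, zero_mul, mul_zero]
  rw [h2, Finset.sum_congr rfl h3, ← Finset.sum_filter]
  refine Finset.sum_congr ?_ fun _ _ => rfl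
  ext η
  rw [Finset.mem_filter, Set.Finite.mem_toFinset, Set.Finite.mem_toFinset]
  exact ⟨fun h => h.2, fun h => ⟨hS h, h⟩⟩

theorem PPX (hEVM : EVM_stmt) (hIDM : IDM_stmt) (hQRS : QRS_stmt) (hQCE : QCE_stmt) : PPX_stmt := by
  classical
  intro p M G _ _ θ u ψ hψ ψ'
  obtain ⟨K, hK⟩ : ∃ K : Subgroup G, K = Cz (⊤ : Subgroup G) u := ⟨_, rfl⟩
  unfold PP
  rw [← hK]
  have hmem : ∀ x : G, x ∈ K ↔ u * x = x * u := by
    intro x
    rw [hK, mem_Cz]
    exact ⟨fun h => h.2, fun h => ⟨Subgroup.mem_top x, h⟩⟩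
  have hu : u ∈ K := (hmem u).2 rfl
  have hcen : Cen K u := fun l hl => ((hmem l).1 hl).symm
  have hSf : (Bl M K θ).Finite := (IrrOn_fin K).subset fun η h => h.1
  have hV : {v : G | v ∈ K ∧ PReg p v}.Finite := Set.toFinite _
  have hVm : ∀ v, v ∈ hV.toFinset ↔ v ∈ K ∧ PReg p v := fun v => by
    rw [Set.Finite.mem_toFinset]
    rfl
  have hVi : ∀ v ∈ hV.toFinset, v⁻¹ ∈ hV.toFinset := by
    intro v hv
    rw [hVm] at hv ⊢
    refine ⟨K.inv_mem hv.1, ?_⟩
    have h := hv.2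
    unfold PReg at h ⊢
    rwa [orderOf_inv]
  rw [finsum_mem_eq_finite_toFinset_sum _ hV, finsum_mem_eq_finite_toFinset_sum _ hSf]
  have h1 : ∀ v ∈ hV.toFinset, ev ψ (eS K (Bl M K θ)) (u * v) * ψ' (u * v)⁻¹ =
      ∑ η ∈ hSf.toFinset, mt K ψ η * (η u / η 1) * (η v * ψ' (u * v)⁻¹) := by
    intro v hv
    rw [hVm] at hv
    rw [PPX_ev hEVM hIDM hQRS K _ (fun η h => h.1) hSf hψ (K.mul_mem hu hv.1), Finset.sum_mul]
    refine Finset.sum_congr rfl fun η hη => ?_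
    rw [Set.Finite.mem_toFinset] at hη
    have h2 := (hQCE G K u hu hcen η hη.1).1 v
    have h3 : η 1 ≠ 0 := IrrOn_ne hη.1
    have h4 : η (u * v) = η u / η 1 * η v := by
      rw [div_mul_eq_mul_div, eq_div_iff h3]
      exact h2
    rw [h4]
    ring
  rw [Finset.sum_congr rfl h1, Finset.sum_comm, Finset.sum_div]
  refine Finset.sum_congr rfl fun η _ => ?_
  rw [← Finset.mul_sum, mul_div_assoc]
  congr 1
  unfold az
  rw [finsum_mem_eq_finite_toFinset_sum _ hV]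
  congr 1
  refine Finset.sum_bij' (fun v _ => v⁻¹) (fun v _ => v⁻¹) hVi hVi (fun v _ => inv_inv v) (fun v _ => inv_inv v) fun v hv => ?_
  rw [hVm] at hv
  have h2 : (u * v)⁻¹ = u⁻¹ * v⁻¹ := by
    rw [(hmem v).1 hv.1, mul_inv_rev]
  rw [inv_inv, h2, mul_comm]

end Pool.Agent.BR
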