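import Pool.Agent.helper59.BR.SpecH
import Pool.Agent.helper20.FI4.KLE

/-!
# Row brh:HCN (MP_baa4d7_al, project BR, block H): the canonical character
-/

set_option autoImplicit false

namespace Pool.Agent.BR

open Pool.Agent.helper58.DC Pool.Agent.DI Pool.Agent.GR Pool.Agent.OB Pool.Agent.DR Pool.Agent.FI Pool.Agent.FI3 Pool.Agent.FI4 Pool.Agent.LE

/-- the linear character of a central subgroup -/
noncomputable def HCN_f {G : Type} [Group G] {D : Subgroup G} {θ' : G → ℂ} (h1 : θ' 1 ≠ 0)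
    (hm : ∀ a ∈ D, ∀ b ∈ D, θ' (a * b) * θ' 1 = θ' a * θ' b) : D →* ℂ where
  toFun u := θ' u / θ' 1
  map_one' := div_self h1
  map_mul' a b := by
    have h := hm a a.2 b b.2
    show θ' ((a : G) * (b : G)) / θ' 1 = θ' a / θ' 1 * (θ' b / θ' 1)
    field_simp
    exact h

theorem HCN (hGOA : GOA_stmt) (hZTH : ZTH_stmt) (hQCE : QCE_stmt) (hB2 : B2_stmt) : HCN_stmt := by
  classical
  intro p M hS hp2 G _ _ D x θ χ lo
  have hDC : D ≤ cz D := le_cz_of_com lo.rt.com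
  have hgood : Good p M D (cz D) θ := hGOA p M hS hp2 G D x θ χ lo D le_rfl (fun t _ h => h)
  have hcen : ∀ u ∈ D, Cen (cz D) u := fun u hu l hl => by
    rw [Subgroup.mem_centralizer_iff] at hl
    exact (hl u hu).symm
  have hne : ∀ θ' ∈ Bl M (cz D) θ, θ' 1 ≠ 0 := by
    intro θ' hθ'
    obtain ⟨n, hn, he, -⟩ := ((hB2 G _).2 θ' hθ'.1).1
    rw [he]
    exact_mod_cast hn.ne'
  have hone : PReg p (1 : G) := by
    unfold PReg
    rw [orderOf_one]
    intro h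
    exact hS.pr.one_lt.ne' (Nat.dvd_one.1 h)
  have hmul : ∀ θ' ∈ Bl M (cz D) θ, ∀ a ∈ D, ∀ b, θ' (a * b) * θ' 1 = θ' a * θ' b := fun θ' hθ' a ha b =>
    (hQCE G (cz D) a (hDC ha) (hcen a ha) θ' hθ'.1).1 b
  obtain ⟨F, hF⟩ : ∃ F : ↥(Bl M (cz D) θ) → (D →* ℂˣ), ∀ θ' (u : D), ((F θ' u : ℂˣ) : ℂ) = (θ' : G → ℂ) u / (θ' : G → ℂ) 1 :=
    ⟨fun θ' => (HCN_f (D := D) (hne θ' θ'.2) (fun a ha b _ => hmul θ' θ'.2 a ha b)).toHomUnits, fun θ' u => rfl⟩
  have hcard : Nat.card (D →* ℂˣ) = Nat.card D := by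
    let _ : CommGroup D := { (inferInstance : Group D) with mul_comm := fun a b => Subtype.ext (lo.rt.com a a.2 b b.2) }
    exact CommGroup.card_monoidHom_of_hasEnoughRootsOfUnity D ℂ
  have hfin : Finite (D →* ℂˣ) := Nat.finite_of_card_ne_zero (by rw [hcard]; exact Nat.card_pos.ne')
  have hinj : Function.Injective F := by
    intro θ' θ'' h
    have hv : ∀ v ∈ cz D, PReg p v → (θ' : G → ℂ) v = (θ'' : G → ℂ) v := fun v hv hr =>
      hgood.reg θ' θ'.2 θ'' θ''.2 v hv hr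
    have h1 := hv 1 (cz D).one_mem hone
    refine Subtype.ext (funext fun g => ?_)
    by_cases hg : g ∈ cz D
    · obtain ⟨y, v, hyv, hy, hr, hc, hyg, hvg⟩ := KLE_dec hS.pr g
      have hle : Subgroup.zpowers g ≤ cz D := by
        rw [Subgroup.zpowers_le]
        exact hg
      rw [← hyv]
      by_cases hyD : y ∈ D
      · have e1 := hmul θ' θ'.2 y hyD v
        have e2 := hmul θ'' θ''.2 y hyD v
        have e3 : (θ' : G → ℂ) y / (θ' : G → ℂ) 1 = (θ'' : G → ℂ) y / (θ'' : G → ℂ) 1 := by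
          rw [← hF θ' ⟨y, hyD⟩, ← hF θ'' ⟨y, hyD⟩, h]
        rw [h1] at e3
        have e4 : (θ' : G → ℂ) y = (θ'' : G → ℂ) y := by
          have h2 := hne θ'' θ''.2
          field_simp at e3
          exact e3
        rw [h1, e4, hv v (hle hvg) hr, ← e2] at e1
        exact mul_right_cancel₀ (hne θ'' θ''.2) e1
      · have hmem : y * v ∈ cz D := by
          rw [hyv]
          exact hg
        rw [hZTH p M hS G D x θ χ lo y v hy hr hc.eq hmem hyD θ' θ'.2, hZTH p M hS G D x θ χ lo y v hy hr hc.eq hmem hyD θ'' θ''.2]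
    · rw [((hB2 G _).2 _ θ'.2.1).2.2.2.1 g hg, ((hB2 G _).2 _ θ''.2.1).2.2.2.1 g hg]
  have hbij : Function.Bijective F := hinj.bijective_of_nat_card_le (by
    rw [hcard, Nat.card_coe_set_eq, hgood.card])
  obtain ⟨θ₁, hθ₁⟩ := hbij.2 1
  refine ⟨θ₁, θ₁.2, fun u hu => ?_⟩
  have h1 := hF θ₁ ⟨u, hu⟩
  rw [hθ₁, MonoidHom.one_apply, Units.val_one] at h1
  exact ((div_eq_one_iff_eq (hne θ₁ θ₁.2)).1 h1.symm)

end Pool.Agent.BR
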