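import Pool.Agent.helper59.BR.SpecH
import Pool.Agent.helper59.LZ.ZAG
import Pool.Agent.helper43.LZ.ZL4

/-!
# Row brh:HVN (MP_baa4d7_al, project BR, block H): the sum of the multiplicities
-/

set_option autoImplicit false

namespace Pool.Agent.BR

open Pool.Agent.helper58.DC Pool.Agent.DI Pool.Agent.GR Pool.Agent.OB Pool.Agent.DR Pool.Agent.FI Pool.Agent.FI3 Pool.Agent.FI4 Pool.Agent.LE

section

variable {G : Type} [Group G]

/-- central `p`-elements act by roots of unity which are `1` modulo `M` -/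
theorem HVN_rou (hQCE : QCE_stmt) (hB2 : B2_stmt) [Finite G] {p : ℕ} {M : Ideal (integralClosure ℤ ℂ)} (hS : Setup p M) {D : Subgroup G}
    (hD : IsPGroup p D) {K : Subgroup G} {z : G} (hz : z ∈ D) (hzK : z ∈ K) (hc : Cen K z) {η : G → ℂ} (hη : η ∈ IrrOn K) :
    InM M (η z / η 1 - 1) ∧ IntAt M (η z / η 1) := by
  obtain ⟨k, hk⟩ : ∃ k : ℕ, z ^ p ^ k = 1 := by
    obtain ⟨k, hk⟩ := hD ⟨z, hz⟩
    exact ⟨k, by simpa using congrArg Subtype.val hk⟩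
  have hne : η 1 ≠ 0 := by
    obtain ⟨n, hn, he, -⟩ := ((hB2 G _).2 η hη).1
    rw [he]
    exact_mod_cast hn.ne'
  have h3 : (η z / η 1) ^ p ^ k = 1 := by
    have h4 := ZAG_pow hQCE hzK hc hη hne (p ^ k)
    rw [hk] at h4
    exact mul_right_cancel₀ hne (by rw [← h4, one_mul])
  have hI := (hQCE G _ z hzK hc η hη).2.2
  exact ⟨ZAG_rou hS hI h3, IntAt.of_isIntegral hS hI⟩

theorem HVN_EE (p : ℕ) (K : Subgroup G) (η η' : G → ℂ) : EE p K η η' = EE p K η' η := by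
  unfold EE
  congr 1
  refine finsum_mem_eq_of_bijOn (fun v => v⁻¹) ⟨fun v hv => ?_, fun a _ b _ h => inv_injective h, fun v hv => ?_⟩ fun v _ => ?_
  · refine ⟨K.inv_mem hv.1, ?_⟩
    have h := hv.2
    unfold PReg at h ⊢
    rwa [orderOf_inv]
  · refine ⟨v⁻¹, ⟨K.inv_mem hv.1, ?_⟩, inv_inv v⟩
    have h := hv.2
    unfold PReg at h ⊢
    rwa [orderOf_inv]
  · rw [inv_inv, mul_comm]

theorem HVN_cc [Finite G] (p : ℕ) (K : Subgroup G) (η η' : G → ℂ) (h1 : η 1 ≠ 0) :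
    EE p K η η' = (η 1 / Nat.card K) * cc η (kap p K η') := by
  have hK : (Nat.card K : ℂ) ≠ 0 := by exact_mod_cast Nat.card_pos.ne'
  rw [ZL4_cc]
  unfold EE
  field_simp

theorem HVN_mt (hQRS : QRS_stmt) [Finite G] {p : ℕ} {M : Ideal (integralClosure ℤ ℂ)} (hS : Setup p M) {K : Subgroup G} {ψ η : G → ℂ}
    (hψ : ψ ∈ IrrOn (⊤ : Subgroup G)) (hη : η ∈ IrrOn K) : IntAt M (mt K ψ η) := by
  obtain ⟨n, hn⟩ := (hQRS G ⊤ K le_top ψ hψ).1 η hη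
  rw [hn]
  exact IntAt.natCast hS n

/-- values at `kap`: integral for characters of `K`, in the local ring for `θ` -/
theorem HVN_kap (hC3 : C3_stmt) (hB2 : B2_stmt) [Finite G] {K : Subgroup G} {p : ℕ} {η η' : G → ℂ}
    (hη : η ∈ IrrOn K) (hη' : η' ∈ IrrOn K) : IsIntegral ℤ (cc η (kap p K η')) :=
  (hC3 G).1 K η hη _ (ZAG_CF fun h hh x => ((hB2 G _).2 η' hη').2.1 x h hh).1 (ZAG_int ((hB2 G _).2 η' hη').2.2.1)

theorem HVN_sbi (hSBI : SBI_stmt) (hB2 : B2_stmt) [Finite G] {p : ℕ} {M : Ideal (integralClosure ℤ ℂ)} (hS : Setup p M) {K : Subgroup G}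
    {η η' θ : G → ℂ} (hη : SB M K η θ) (hη' : η' ∈ IrrOn K) : InM M (cc η (kap p K η') - cc θ (kap p K η')) :=
  (hSBI p M hS G _ _ _ hη).1 _ (ZAG_CF fun h hh x => ((hB2 G _).2 η' hη').2.1 x h hh)
    fun y => IntAt.of_isIntegral hS (ZAG_int ((hB2 G _).2 η' hη').2.2.1 y)

end

set_option linter.unusedVariables false in
theorem HVN (hHVA : HVA_stmt) (hHAI : HAI_stmt) (hZX0 : ZX0_stmt) (hZAX : ZAX_stmt) (hQRS : QRS_stmt) (hQCE : QCE_stmt) (hQEI : QEI_stmt)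
    (hSBI : SBI_stmt) (hC3 : C3_stmt) (hB2 : B2_stmt) : HVN_stmt := by
  classical
  intro p M hS G _ _ D x θ χ lo z hz ψ₀ hψ₀ hunit
  obtain ⟨K, hKdef⟩ : ∃ K : Subgroup G, K = Cz (⊤ : Subgroup G) z := ⟨_, rfl⟩
  have hzp : Subgroup.zpowers z ≤ D := by
    rw [Subgroup.zpowers_le]
    exact hz
  have hKz : cz (Subgroup.zpowers z) = K := by rw [hKdef, cz_zp]
  have hzK : z ∈ K := by
    rw [hKdef]
    exact ZAG_mem.2 rfl
  have hcen : Cen K z := fun l hl => by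
    rw [hKdef] at hl
    exact (ZAG_mem.1 hl).symm
  obtain ⟨η₀, hη₀, hk₀⟩ := hZX0 p M hS G D x θ χ lo (Subgroup.zpowers z) hzp
  rw [hKz] at hη₀ hk₀
  obtain ⟨N, hN, hva⟩ := hHVA p M hS G D x θ χ lo z hz
  rw [← hKdef] at hva ⊢
  have hA0 : IntAt M ((Nat.card D : ℂ) * ψ₀ 1 / Nat.card G) := by
    have h := hHAI p M hS G D x θ χ lo ⊥ bot_le ψ₀ (by rw [Pool.Agent.FI4B.BST_cz_bot]; exact hψ₀)
    rw [Pool.Agent.FI4B.BST_cz_bot, Subgroup.card_top] at h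
    exact h
  have hA1 : IntAt M ((Nat.card D : ℂ) * η₀ 1 / Nat.card K) := by
    have h := hHAI p M hS G D x θ χ lo (Subgroup.zpowers z) hzp η₀ (by rw [hKz]; exact hη₀)
    rw [hKz] at h
    exact h
  have hfin : (Bl M K θ).Finite := (hB2 G K).1.subset fun ψ h => h.1
  have hG0 : (Nat.card G : ℂ) ≠ 0 := by exact_mod_cast Nat.card_pos.ne'
  have hψ1 : ψ₀ 1 ≠ 0 := by
    obtain ⟨n, hn, he, -⟩ := ((hB2 G _).2 ψ₀ hψ₀.1).1
    rw [he]
    exact_mod_cast hn.ne'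
  have hη1 : η₀ 1 ≠ 0 := by
    obtain ⟨n, hn, he, -⟩ := ((hB2 G _).2 η₀ hη₀.1).1
    rw [he]
    exact_mod_cast hn.ne'
  -- the unit
  obtain ⟨X, hX⟩ : ∃ X : ℂ, X = (Nat.card G : ℂ) * az p K η₀ ψ₀ z / ψ₀ 1 := ⟨_, rfl⟩
  have hk₀I : IntAt M (cc θ (kap p K η₀)) := by
    have h1 := (HVN_sbi hSBI hB2 hS hη₀.2 hη₀.1 (p := p)).intAt
    have h2 := IntAt.of_isIntegral hS (HVN_kap hC3 hB2 hη₀.1 hη₀.1 (p := p))
    have h3 := h2.sub hS h1
    rwa [sub_sub_cancel] at h3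
  have hX1 := hva η₀ hη₀ ψ₀ hψ₀
  rw [← hX] at hX1
  have hXn : ¬ InM M X := by
    intro h
    have h1 : InM M ((N : ℂ) * cc θ (kap p K η₀)) := by
      have h2 := h.sub hS hX1
      rwa [sub_sub_cancel] at h2
    rcases InM.or hS (IntAt.natCast hS N) hk₀I h1 with h2 | h2
    · exact hN ((InM.natCast hS N).1 h2)
    · exact hk₀ h2
  have hXI : IntAt M X := by
    have h1 := hX1.intAt.add hS ((IntAt.natCast hS N).mul hS hk₀I)
    rwa [sub_add_cancel] at h1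
  have hprod : ¬ InM M ((Nat.card D : ℂ) * az p K η₀ ψ₀ z) := by
    intro h
    have h1 : (Nat.card D : ℂ) * az p K η₀ ψ₀ z = ((Nat.card D : ℂ) * ψ₀ 1 / Nat.card G) * X := by
      rw [hX]
      field_simp
    rw [h1] at h
    rcases InM.or hS hA0 hXI h with h2 | h2
    · exact hunit h2
    · exact hXn h2
  -- the expansion
  have hax := hZAX p M hS G K θ η₀ hη₀ z hzK hcen ψ₀ hψ₀.1
  rw [finsum_mem_eq_finite_toFinset_sum _ hfin] at hax
  have hexp : (Nat.card D : ℂ) * az p K η₀ ψ₀ z = ((Nat.card D : ℂ) * η₀ 1 / Nat.card K) *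
      ∑ η ∈ hfin.toFinset, mt K ψ₀ η * (η z / η 1) * cc η₀ (kap p K η) := by
    rw [hax, Finset.mul_sum, Finset.mul_sum]
    refine Finset.sum_congr rfl fun η _ => ?_
    rw [HVN_EE, HVN_cc p K η₀ η hη1]
    ring
  rw [hexp] at hprod
  have hSn : ¬ InM M (∑ η ∈ hfin.toFinset, mt K ψ₀ η * (η z / η 1) * cc η₀ (kap p K η)) :=
    fun h => hprod (InM.mul_left hS hA1 h)
  intro h
  apply hSn
  rw [finsum_mem_eq_finite_toFinset_sum _ hfin] at h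
  have hdiff : InM M (∑ η ∈ hfin.toFinset, mt K ψ₀ η * (η z / η 1) * cc η₀ (kap p K η) -
      ∑ η ∈ hfin.toFinset, mt K ψ₀ η * cc θ (kap p K η)) := by
    rw [← Finset.sum_sub_distrib]
    refine InM.sum hS _ fun η hη => ?_
    rw [Set.Finite.mem_toFinset] at hη
    obtain ⟨r1, r2⟩ := HVN_rou hQCE hB2 hS lo.rt.dfa.pgrp hz hzK hcen hη.1
    have h2 : mt K ψ₀ η * (η z / η 1) * cc η₀ (kap p K η) - mt K ψ₀ η * cc θ (kap p K η) =
        mt K ψ₀ η * ((η z / η 1 - 1) * cc η₀ (kap p K η) + (cc η₀ (kap p K η) - cc θ (kap p K η))) := by ring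
    rw [h2]
    refine InM.mul_left hS (HVN_mt hQRS hS hψ₀.1 hη.1) (InM.add hS ?_ ?_)
    · exact InM.mul_right hS r1 (IntAt.of_isIntegral hS (HVN_kap hC3 hB2 hη₀.1 hη.1))
    · exact HVN_sbi hSBI hB2 hS hη₀.2 hη.1
  have h3 := hdiff.add hS h
  rwa [sub_add_cancel] at h3

end Pool.Agent.BR
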