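import Mathlib
import Pool.Agent.helper12.BR.DefsR
import Pool.Agent.helper59.FI.Base
import Pool.Agent.helper59.FI4.SpecP4
import Pool.Agent.helper44.FI4B.BST

/-!
# Project BR (MP_baa4d7_al), block H: the character `ψ₀`, valuations, projections

OUTPUT: `PS0_stmt`, `PRO_stmt`, `PIV_stmt` of `helper12/BR/DefsR`.

`K = Cz ⊤ u`, `b = Bl M K θ`. (1) `PP ψ ψ' u = ∑_(η ∈ b) mt ψ' η (η u⁻¹ / η 1) az η ψ u` (HAX) `= ∑_(η ∈ b) az η ψ u * conj (az η ψ' u)` (HGR). (2) The vectors `(PP ψ ψ₀ u)_ψ` are orthogonal for different `T`-classes of `u ∈ D` and have the norm `PP ψ₀ ψ₀ u` (HPO): so PRO and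
`∑_(u ∈ D) ‖ci u * PP ψ ψ' u‖ ≤ iI` (HBP, HWT, HL1). (3) VALUATION: if `|D| ψ₀ 1 / |G|` is not `InM` then `|G| PP ψ ψ₀ u / ψ 1` is not `InM` for all `u ∈ D`, `ψ ∈ B` (HVA, HVN, HVP). (4) `|D| PP ψ ψ₀ (u ^ s)` are conjugate algebraic integers (PPL) divisible by `p ^ k`, `k` the height of `ψ`, so
`p ^ k ≤ mean ‖|D| PP ψ ψ₀ u‖ ≤ iI` (HNL, HHB). (5) `ψ₀` exists: `∑_ψ mt (cz D) ψ θ₁ * (|D| ψ 1 / |G|)` is a unit (HSM) and the Galois group `⟨m⟩` is a `p`-group acting on the summands (HFX), `θ₁` the canonical character of `b(θ)` (HCN).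

RULES. File `Pool/Agent/<seat>/BR/XXX.lean` with

  import Pool.Agent.helper59.BR.SpecH
  set_option autoImplicit false
  namespace Pool.Agent.BR
  open Pool.Agent.helper58.DC Pool.Agent.DI Pool.Agent.GR Pool.Agent.OB Pool.Agent.DR Pool.Agent.FI Pool.Agent.FI3 Pool.Agent.FI4 Pool.Agent.LE
  theorem XXX (hYYY : YYY_stmt) ... : XXX_stmt := ...
  end Pool.Agent.BR

auxiliary lemmas prefixed `XXX_`, no sorry, no double quotes in the file, no `convert`, no `congr!`. The rows named in the docstring are hypotheses; all rows of the older specs (all proved) may be added as further hypotheses, see `helper70/LZ/SpecZ`. Facts: `ZL4_cc ZL4_kap ZL4_kapint` (`helper43/LZ/ZL4`), `ZNV_*` (`helper58/LZ/ZNV`), `ZNR_sw` (`helper59/LZ/ZNR`),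
`ZOR_gen` (`helper98/LZ/ZOR`), `SBIb TRNb mem_Cz cz_mono IrrOn_fin IrrOn_int IrrOn_conj` (`helper59/FI/Base`).
-/

set_option autoImplicit false

namespace Pool.Agent.BR

open Pool.Agent.helper58.DC Pool.Agent.DI Pool.Agent.GR Pool.Agent.OB Pool.Agent.DR Pool.Agent.FI Pool.Agent.FI3 Pool.Agent.FI4 Pool.Agent.LE

/-! ## 1. Formulas for `PP` -/

/-- **HAX** (short-medium; from QRS, QCE, QEI, ZAX, BLE, QEK or EVM/IDM). Proof: `K = Cz ⊤ u`, `u` is central in `K`, `e = eS K (Bl M K θ)`. For `g ∈ K`: `ψ g = ∑_(η ∈ IrrOn K) mt K ψ η * η g` (QRS), so `ev ψ e (u v) = ∑_x e x * ψ (u v x) = ∑_(η ∈ Bl M K θ) mt K ψ η * η (u v)` (`ψ (u v x) = ψ (x u v)`, QEK; `e x = 0` for `x ∉ K`).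
`ψ' (u v)⁻¹ = ∑_(η' ∈ IrrOn K) mt K ψ' η' * η' (u⁻¹ v⁻¹)`; QCE: `η (u v) = (η u / η 1) * η v`, `η' (u⁻¹ v⁻¹) = (η' u⁻¹ / η' 1) * η' v⁻¹`. So `PP = ∑_(η' ∈ IrrOn K) mt ψ' η' * (η' u⁻¹ / η' 1) * ∑_(η ∈ Bl M K θ) mt ψ η * (η u / η 1) * EE p K η η'`, the terms with `η' ∉ Bl M K θ` are `0` (QEI (2)), and for
`η' ∈ Bl M K θ` the inner sum is `az p K η' ψ u` (ZAX). -/
def HAX_stmt : Prop :=
  ∀ (p : ℕ) (M : Ideal (integralClosure ℤ ℂ)), Setup p M → ∀ (G : Type) [Group G] [Finite G] (θ : G → ℂ) (u : G),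
    ∀ ψ ∈ IrrOn (⊤ : Subgroup G), ∀ ψ' ∈ IrrOn (⊤ : Subgroup G),
    PP p M θ ψ ψ' u = ∑ᶠ η ∈ Bl M (Cz (⊤ : Subgroup G) u) θ,
      mt (Cz (⊤ : Subgroup G) u) ψ' η * (η u⁻¹ / η 1) * az p (Cz (⊤ : Subgroup G) u) η ψ u

/-- **HGR** (short-medium; from HAX, ZAX, QEI, QRS, STC). Gram formula. Proof: `b = Bl M K θ`, `c η = mt K ψ' η * (η u / η 1)`. `conj (az η ψ' u) = ∑_(ξ ∈ b) conj (c ξ) * EE η ξ` (ZAX, `conj (EE ξ η) = EE η ξ` by QEI (3)), `az η ψ u = ∑_(ζ ∈ b) d ζ * EE ζ η`, so by QEI (1)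
`∑_η az η ψ u * conj (az η ψ' u) = ∑_(ζ, ξ) d ζ * conj (c ξ) * EE ζ ξ = ∑_ξ conj (c ξ) * az ξ ψ u`, and `conj (c ξ) = mt K ψ' ξ * (ξ u⁻¹ / ξ 1)` (`mt` is a natural number, QRS; STC; `ξ 1` is a natural number). HAX. -/
def HGR_stmt : Prop :=
  ∀ (p : ℕ) (M : Ideal (integralClosure ℤ ℂ)), Setup p M → ∀ (G : Type) [Group G] [Finite G] (θ : G → ℂ) (u : G),
    ∀ ψ ∈ IrrOn (⊤ : Subgroup G), ∀ ψ' ∈ IrrOn (⊤ : Subgroup G),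
    PP p M θ ψ ψ' u = ∑ᶠ η ∈ Bl M (Cz (⊤ : Subgroup G) u) θ,
      az p (Cz (⊤ : Subgroup G) u) η ψ u * (starRingEnd ℂ) (az p (Cz (⊤ : Subgroup G) u) η ψ' u)

/-! **PIV** (short; from HGR, GP2). `Cz ⊤ (u ^ s) = Cz ⊤ u` (`s` is prime to `p`, `u` a `p`-element) and `az η ψ (u ^ s) = az η ψ u` (GP2, as in ZGA). Theorem line `theorem PIV (hHGR : HGR_stmt) (hGP2 : GP2_stmt) : PIV_stmt`. -/

/-! ## 2. Orthogonality -/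

/-- **HNR** (short; COPY of ZNR, `helper59/LZ/ZNR.lean`, with two characters). -/
def HNR_stmt : Prop :=
  ∀ (p : ℕ) (M : Ideal (integralClosure ℤ ℂ)), Setup p M → ∀ (G : Type) [Group G] [Finite G] (θ : G → ℂ) (u : G), PEl p u →
    ∀ η ∈ IrrOn (Cz (⊤ : Subgroup G) u), SB M (⊤ : Subgroup G) η θ → ∀ η' ∈ IrrOn (Cz (⊤ : Subgroup G) u), SB M (⊤ : Subgroup G) η' θ →
    ∑ᶠ ψ ∈ Bl M (⊤ : Subgroup G) θ, az p (Cz (⊤ : Subgroup G) u) η ψ u * (starRingEnd ℂ) (az p (Cz (⊤ : Subgroup G) u) η' ψ u) =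
      EE p (Cz (⊤ : Subgroup G) u) η' η

/-- **HOR** (short-medium; ADAPTATION of ZOR, `helper98/LZ/ZOR.lean`, to two groups `K = Cz ⊤ u`, `K' = Cz ⊤ u'`; if `g u g⁻¹ = u'` then `cjS g K = K'`). -/
def HOR_stmt : Prop :=
  ∀ (p : ℕ) (M : Ideal (integralClosure ℤ ℂ)), Setup p M → ∀ (G : Type) [Group G] [Finite G] (θ : G → ℂ) (u u' : G),
    PEl p u → PEl p u' → ∀ η ∈ IrrOn (Cz (⊤ : Subgroup G) u), ∀ η' ∈ IrrOn (Cz (⊤ : Subgroup G) u'),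
    (∀ g : G, g * u * g⁻¹ = u' → ¬ SB M (Cz (⊤ : Subgroup G) u') (cjF g η) η') →
    ∑ᶠ ψ ∈ Bl M (⊤ : Subgroup G) θ, az p (Cz (⊤ : Subgroup G) u) η ψ u * (starRingEnd ℂ) (az p (Cz (⊤ : Subgroup G) u') η' ψ u') = 0

/-- **HTO** (short; from HOR, QFU4). Proof: if `g u g⁻¹ = u'` and `SB M (Cz ⊤ u') (cjF g η) η'` then QFU4 (`P = ⊥`, `cz ⊥ = ⊤`, `l = g`, `ψ = η`) gives `k ∈ Cz ⊤ u'` with `t = k g ∈ TT M D θ`, `t u t⁻¹ = u'`. -/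
def HTO_stmt : Prop :=
  ∀ (p : ℕ) (M : Ideal (integralClosure ℤ ℂ)), Setup p M → ∀ (G : Type) [Group G] [Finite G]
    (D : Subgroup G) (x : G) (θ χ : G → ℂ), LoA p M D x θ χ → ∀ u ∈ D, ∀ u' ∈ D, (∀ t ∈ TT M D θ, t * u * t⁻¹ ≠ u') →
    ∀ η ∈ Bl M (Cz (⊤ : Subgroup G) u) θ, ∀ η' ∈ Bl M (Cz (⊤ : Subgroup G) u') θ,
    ∑ᶠ ψ ∈ Bl M (⊤ : Subgroup G) θ, az p (Cz (⊤ : Subgroup G) u) η ψ u * (starRingEnd ℂ) (az p (Cz (⊤ : Subgroup G) u') η' ψ u') = 0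

/-- **HPT** (short-medium; from HGR, FEQ, B2). Invariance under `T`. Proof: `u' = t u t⁻¹`, `K' = Cz ⊤ u' = cjS t K`, and `η ↦ cjF t η` is a bijection `Bl M K θ → Bl M K' θ` (FEQ: `Bl M (cjS t K) (cjF t θ)`; `SB M (cz D) (cjF t θ) θ` by definition of `TT` and `cz D ≤ K'` (`u' ∈ D`), so `SB M K' (cjF t θ) θ` by TRNb).
`az p K' (cjF t η) ψ u' = az p K η ψ u` (substitute `v = t w t⁻¹`; `ψ` is a class function of `G`). HGR. -/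
def HPT_stmt : Prop :=
  ∀ (p : ℕ) (M : Ideal (integralClosure ℤ ℂ)), Setup p M → ∀ (G : Type) [Group G] [Finite G]
    (D : Subgroup G) (x : G) (θ χ : G → ℂ), LoA p M D x θ χ → ∀ u ∈ D, ∀ t ∈ TT M D θ,
    ∀ ψ ∈ IrrOn (⊤ : Subgroup G), ∀ ψ' ∈ IrrOn (⊤ : Subgroup G), PP p M θ ψ ψ' (t * u * t⁻¹) = PP p M θ ψ ψ' u

/-- **HPO** (short-medium; from HGR, ZAX, QEI, HNR, HTO). Orthogonality of the vectors `(PP ψ ψ₀ u)_ψ`. Proof: HGR: `PP ψ ψ₀ u = ∑_(η ∈ b_u) az η ψ u * conj (az η ψ₀ u)`, so the sum is `∑_(η, η') conj (az η ψ₀ u) * az η' ψ₀ u' * ∑_ψ az η ψ u * conj (az η' ψ u')`. (2) HTO. (1) By HNR (`SB M ⊤ η θ`: TRNb, `K ≤ ⊤`) the inner sum is `EE η' η`, and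
`∑_(η' ∈ b) az η' ψ₀ u * EE η' η = az η ψ₀ u` (ZAX, QEI (1)), so the sum is `∑_η az η ψ₀ u * conj (az η ψ₀ u) = PP ψ₀ ψ₀ u`. `u ∈ D` is a `p`-element. -/
def HPO_stmt : Prop :=
  ∀ (p : ℕ) (M : Ideal (integralClosure ℤ ℂ)), Setup p M → ∀ (G : Type) [Group G] [Finite G]
    (D : Subgroup G) (x : G) (θ χ : G → ℂ), LoA p M D x θ χ → ∀ ψ₀ ∈ Bl M (⊤ : Subgroup G) θ, ∀ u ∈ D,
    ∑ᶠ ψ ∈ Bl M (⊤ : Subgroup G) θ, PP p M θ ψ ψ₀ u * (starRingEnd ℂ) (PP p M θ ψ ψ₀ u) = PP p M θ ψ₀ ψ₀ u ∧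
    ∀ u' ∈ D, (∀ t ∈ TT M D θ, t * u * t⁻¹ ≠ u') →
      ∑ᶠ ψ ∈ Bl M (⊤ : Subgroup G) θ, PP p M θ ψ ψ₀ u * (starRingEnd ℂ) (PP p M θ ψ ψ₀ u') = 0

/-- **HBP** (short-medium; PURE). Bessel. Proof: `A = ∑_u w u • a u`. `⟨A, A⟩ = ∑_(u, u') w u * w u' * ⟨a u, a u'⟩ = ∑_u w u * (∑_(r u u') w u') * a u b₀ = ∑_u w u * a u b₀ =: s = A b₀`, real and `≥ 0` (`a u b₀ = ∑ ‖a u b‖ ^ 2`). `‖A - e_(b₀)‖ ^ 2 = s - 2 s + 1 ≥ 0`, so `s ≤ 1`. `‖a u b₀‖ = a u b₀`. -/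
def HBP_stmt : Prop :=
  ∀ (B : Type) [Fintype B] (Q : Type) [Fintype Q] (r : Q → Q → Prop) (w : Q → ℝ) (a : Q → B → ℂ) (b₀ : B), (∀ u, 0 ≤ w u) →
    (∀ u, ∑ᶠ u' ∈ {u' | r u u'}, w u' = 1) → (∀ u u', r u u' → a u' = a u) →
    (∀ u u', ¬ r u u' → ∑ b, a u b * (starRingEnd ℂ) (a u' b) = 0) → (∀ u, ∑ b, a u b * (starRingEnd ℂ) (a u b) = a u b₀) →
    ∑ b, ‖∑ u, (w u : ℂ) * a u b‖ ^ 2 ≤ 1 ∧ ∑ u, w u * ‖a u b₀‖ ≤ 1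

/-- **HWT** (short-medium; group theory, orbit and stabiliser). `C = cz D ≤ T = TT M D θ`. The number of the `u' = t u t⁻¹`, `t ∈ T`, is `|T| / |Cz T u|`, and `|Cz T u'| = |Cz T u|`, so the sum is `(|T| / |Cz T u|) * |Cz T u| / |C| = |T : C| = iI`. The second claim: `cz D ≤ Cz T u` (`u ∈ D`). -/
def HWT_stmt : Prop :=
  ∀ (M : Ideal (integralClosure ℤ ℂ)) (G : Type) [Group G] [Finite G] (D : Subgroup G) (θ : G → ℂ), θ ∈ IrrOn (cz D) → ∀ u ∈ D,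
    ∑ᶠ u' ∈ {u' : G | ∃ t ∈ TT M D θ, t * u * t⁻¹ = u'}, ci M D θ u' = iI M D θ ∧ ∃ c : ℝ, 1 ≤ c ∧ ci M D θ u = (c : ℂ)

/-! **PRO** (short-medium; from HBP, HWT, HPT, HPO). Proof: `B` the block, `Q = K`, `r u u'` conjugacy under `T` (`K` is `T`-invariant), `w u = ci u / iI`, `a u ψ = PP ψ ψ₀ u`. `0 < iI`. Multiply HBP by `iI ^ 2`. -/

/-- **HL1** (short-medium; from HBP, HWT, HPT, HPO, HGR). Proof: HBP for `Q = D` and `b₀ = ψ`, `b₀ = ψ'`: `∑_u ‖ci u * PP ψ ψ u‖ ≤ iI`, the same for `ψ'`. `‖PP ψ ψ' u‖ ≤ (‖PP ψ ψ u‖ + ‖PP ψ' ψ' u‖) / 2` by HGR (`PP ψ ψ u = ∑ ‖az‖ ^ 2`). -/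
def HL1_stmt : Prop :=
  ∀ (p : ℕ) (M : Ideal (integralClosure ℤ ℂ)), Setup p M → ∀ (G : Type) [Group G] [Finite G]
    (D : Subgroup G) (x : G) (θ χ : G → ℂ), LoA p M D x θ χ → ∀ ψ ∈ Bl M (⊤ : Subgroup G) θ, ∀ ψ' ∈ Bl M (⊤ : Subgroup G) θ,
    ∑ᶠ u ∈ (D : Set G), ‖ci M D θ u * PP p M θ ψ ψ' u‖ ≤ iI M D θ

/-! ## 3. Valuations -/

/-- **HVA** (short-medium; from ZAG, ZCT; ADAPTATION of `ZNV_main`, `helper58/LZ/ZNV.lean`). Proof: as ZNV: `W x = ∑_(cosets g K) kap (z⁻¹ g⁻¹ x g)`, `cc ψ W = |G| * az p K η ψ z / ψ 1` (`ZNV_ag`, there are `|G| / |K|` cosets), `InM (cc ψ W - cc θ W)` (SBIb), `InM (cc θ W - N * cc θ (kap p K η))`, `N` of ZCT. -/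
def HVA_stmt : Prop :=
  ∀ (p : ℕ) (M : Ideal (integralClosure ℤ ℂ)), Setup p M → ∀ (G : Type) [Group G] [Finite G]
    (D : Subgroup G) (x : G) (θ χ : G → ℂ), LoA p M D x θ χ → ∀ z ∈ D, ∃ N : ℕ, ¬ p ∣ N ∧
    ∀ η ∈ Bl M (Cz (⊤ : Subgroup G) z) θ, ∀ ψ ∈ Bl M (⊤ : Subgroup G) θ,
      InM M ((Nat.card G : ℂ) * az p (Cz (⊤ : Subgroup G) z) η ψ z / ψ 1 - (N : ℂ) * cc θ (kap p (Cz (⊤ : Subgroup G) z) η))

/-- **HAI** (short; the number `hA` in the proof of ZL4, `helper43/LZ/ZL4.lean`: copy). -/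
def HAI_stmt : Prop :=
  ∀ (p : ℕ) (M : Ideal (integralClosure ℤ ℂ)), Setup p M → ∀ (G : Type) [Group G] [Finite G]
    (D : Subgroup G) (x : G) (θ χ : G → ℂ), LoA p M D x θ χ → ∀ P ≤ D, ∀ η ∈ Bl M (cz P) θ,
    IntAt M ((Nat.card D : ℂ) * η 1 / Nat.card (cz P))

/-- **HVN** (medium; from HVA, HAI, ZX0, ZAX, QRS, QCE, QEI, SBI). Proof: `K = Cz ⊤ z = cz (zpowers z)` (`cz_zp`), `b = Bl M K θ`, `η₀ ∈ b` from ZX0 (`¬ InM (cc θ (kap η₀))`), `N` from HVA. `|D| * az η₀ ψ₀ z = (|D| ψ₀ 1 / |G|) * (|G| az η₀ ψ₀ z / ψ₀ 1)`; the second factor is congruent to `N * cc θ (kap η₀)`, not `InM`;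
so the product is not `InM` (`InM.or`, both factors are `IntAt`: HAI for `P = ⊥`). ZAX: `az η₀ ψ₀ z = ∑_(η ∈ b) mt K ψ₀ η * (η z / η 1) * EE η η₀`, `EE η η₀ = EE η₀ η` (substitute `v⁻¹`) and `|D| EE η₀ η = (|D| η₀ 1 / |K|) * cc η₀ (kap η)` (`ZL4_cc`): `|D| az η₀ ψ₀ z = (|D| η₀ 1 / |K|) * S`, `S = ∑_η mt K ψ₀ η * (η z / η 1) * cc η₀ (kap η)`.
So `S` is not `InM` (`S` and the first factor (HAI) are `IntAt`). `cc η₀ (kap η) - cc θ (kap η)` is `InM` (SBI; both are integral, C3), `η z / η 1 - 1` is `InM` (integral, a root of unity of `p`-power order: QCE; `(η z / η 1) ^ |D| = 1`, see the end of ZAG, `helper59/LZ/ZAG.lean`), `mt` is a natural number. So the sum below is congruent to `S`. -/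
def HVN_stmt : Prop :=
  ∀ (p : ℕ) (M : Ideal (integralClosure ℤ ℂ)), Setup p M → ∀ (G : Type) [Group G] [Finite G]
    (D : Subgroup G) (x : G) (θ χ : G → ℂ), LoA p M D x θ χ → ∀ z ∈ D, ∀ ψ₀ ∈ Bl M (⊤ : Subgroup G) θ,
    ¬ InM M ((Nat.card D : ℂ) * ψ₀ 1 / Nat.card G) →
    ¬ InM M (∑ᶠ η ∈ Bl M (Cz (⊤ : Subgroup G) z) θ, mt (Cz (⊤ : Subgroup G) z) ψ₀ η * cc θ (kap p (Cz (⊤ : Subgroup G) z) η))

/-- **HVP** (short-medium; from HAX, HVA, HVN, QRS, QCE). Proof: HAX: `|G| PP ψ ψ₀ z / ψ 1 = ∑_(η ∈ b) mt K ψ₀ η * (η z⁻¹ / η 1) * (|G| az η ψ z / ψ 1)`, `η z⁻¹ / η 1 - 1` is `InM` (as in HVN, for `z⁻¹`), `|G| az η ψ z / ψ 1 - N * cc θ (kap η)` is `InM` (HVA). So it is congruent to `N` times the sum of HVN; `cc θ (kap η)` is integral (C3). -/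
def HVP_stmt : Prop :=
  ∀ (p : ℕ) (M : Ideal (integralClosure ℤ ℂ)), Setup p M → ∀ (G : Type) [Group G] [Finite G]
    (D : Subgroup G) (x : G) (θ χ : G → ℂ), LoA p M D x θ χ → ∀ z ∈ D, ∀ ψ₀ ∈ Bl M (⊤ : Subgroup G) θ,
    ¬ InM M ((Nat.card D : ℂ) * ψ₀ 1 / Nat.card G) → ∀ ψ ∈ Bl M (⊤ : Subgroup G) θ,
    IntAt M ((Nat.card G : ℂ) * PP p M θ ψ ψ₀ z / ψ 1) ∧ ¬ InM M ((Nat.card G : ℂ) * PP p M θ ψ ψ₀ z / ψ 1)

/-! ## 4. The character `ψ₀` -/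

/-- **HCN** (medium; from GOA or QCG (`Good` for `cz D`), ZTH, QCE, B2). The canonical character. Proof: `C = cz D`, `D ≤ C` is central in `C`. Every `θ' ∈ Bl M C θ` is determined by the homomorphism `l θ' u = θ' u / θ' 1`, `u ∈ D`: `θ' (u v) = l θ' u * θ' v` for `v ∈ C` `p`-regular (QCE), all `θ' v` are the same (`Good.reg`), and `θ' (u v) = 0` for a
`p`-element `u ∈ C`, `u ∉ D` (ZTH); every `g ∈ C` is `u v` (`p`-part and `p'`-part, powers of `g`). So `θ' ↦ l θ'` is an injective map of `Bl M C θ` into the set of the homomorphisms `D →* ℂˣ`, which has `|D|` elements (`D` is abelian), as many as `Bl M C θ` (`Good.card`): some `l θ₁` is trivial. -/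
def HCN_stmt : Prop :=
  ∀ (p : ℕ) (M : Ideal (integralClosure ℤ ℂ)), Setup p M → p ≠ 2 → ∀ (G : Type) [Group G] [Finite G]
    (D : Subgroup G) (x : G) (θ χ : G → ℂ), LoA p M D x θ χ → ∃ θ₁ ∈ Bl M (cz D) θ, ∀ u ∈ D, θ₁ u = θ₁ 1

/-- **HCM** (short-medium; from ZTH, QCE). `θ₁` is fixed by the automorphism. Proof: `x ∉ C`: `x ^ m ∉ C` (`x` is a power of `x ^ m`, `Gm2.cop`), both values are `0`. `x = u v ∈ C`, `u` the `p`-part, `v` the `p'`-part (powers of `x`): `x ^ m = u ^ m v` (`Gm2.reg` for `d = orderOf v`). If `u ∉ D` then `u ^ m ∉ D` and both values are `0` (ZTH).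
If `u ∈ D` both values are `θ₁ v` (QCE, `θ₁ u = θ₁ 1 ≠ 0`). -/
def HCM_stmt : Prop :=
  ∀ (p : ℕ) (M : Ideal (integralClosure ℤ ℂ)), Setup p M → ∀ (G : Type) [Group G] [Finite G]
    (D : Subgroup G) (x : G) (θ χ : G → ℂ), LoA p M D x θ χ → ∀ θ₁ ∈ Bl M (cz D) θ, (∀ u ∈ D, θ₁ u = θ₁ 1) →
    ∀ m : ℕ, Gm2 p (Nat.card G) m → PR m θ₁

/-- **HSM** (medium; from BLE, SBI, TPR, HTZ4, GOA (`Good` for `cz D`), B2). Proof: `C = cz D`, `e = eS ⊤ (Bl M ⊤ θ)`: `|G| * e x = ∑_(ψ ∈ Bl M ⊤ θ) ψ 1 * ψ x⁻¹`. `mt C ψ θ₁ = |C|⁻¹ ∑_(x ∈ C) ψ x * θ₁ x⁻¹`, so the sum is `(|D| / |C|) ∑_(x ∈ C) θ₁ x⁻¹ * e x⁻¹ = (|D| θ₁ 1 / |C|) * cc θ₁ e` (`θ₁` vanishes outside of `C`).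
The first factor is `IntAt` and not `InM`: `Defect p C θ₁ a`, `|D| = p ^ a` (HTZ4 for `P = D`, `Good p M D (cz D) θ` by GOA with `RP M D θ D`). `cc θ₁ e - 1` is `InM`: `SB M ⊤ θ₁ θ` (TRNb, `C ≤ ⊤`), `χ ∈ Bl M ⊤ θ` (`lo.rt.ind`, TPR) has `cc χ e = 1` (BLE), SBI. -/
def HSM_stmt : Prop :=
  ∀ (p : ℕ) (M : Ideal (integralClosure ℤ ℂ)), Setup p M → p ≠ 2 → ∀ (G : Type) [Group G] [Finite G]
    (D : Subgroup G) (x : G) (θ χ : G → ℂ), LoA p M D x θ χ → ∀ θ₁ ∈ Bl M (cz D) θ,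
    ¬ InM M (∑ᶠ ψ ∈ Bl M (⊤ : Subgroup G) θ, mt (cz D) ψ θ₁ * ((Nat.card D : ℂ) * ψ 1 / Nat.card G))

/-- **HFX** (short-medium; PURE). A `p`-group action and weights. Proof: group the elements by the value of `w`: the set `{b | w b = c}` is stable under `f`, and its number of elements is congruent modulo `p` to the number of the fixed points of `f` in it (`f` has `p`-power order: `Equiv.Perm.card_fixedPoints_modEq` or the orbits of `zpowers f`). `p` is `InM`. -/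
def HFX_stmt : Prop :=
  ∀ (p : ℕ) (M : Ideal (integralClosure ℤ ℂ)), Setup p M → ∀ (B : Type) [Fintype B] (f : Equiv.Perm B) (N : ℕ), f ^ p ^ N = 1 →
    ∀ w : B → ℂ, (∀ b, IntAt M (w b)) → (∀ b, w (f b) = w b) →
    InM M (∑ b, w b - ∑ᶠ b ∈ {b | f b = b}, w b)

/-- **HHT** (medium; from HCN, HCM, HSM, HFX, HAI, BLE, QRS, and `BST_perm` of `helper44/FI4B/BST`). Existence of `ψ₀` (O1). Proof: `B = Bl M ⊤ θ`, `f ψ = (g ↦ ψ (g ^ m))`, a permutation of `B`: `f ψ ∈ IrrOn ⊤` (ZT4), and with `e = eS ⊤ B`, `e x = 0` if `x` is not `p`-regular, `x ^ m = x` if it is (`Gm2.reg`), so `cc (f ψ) e = cc ψ e = 1` and `f ψ ∈ B` (BLE).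
`f ^ p ^ N = 1` for some `N`: `m ^ (p ^ N) ≡ 1` modulo `|G|` (`Gm2.one`, `Gm2.reg`; `|G| = p ^ a n'`; if `p ∤ |G|` then `m ≡ 1` modulo `|G|`). `w ψ = mt (cz D) ψ θ₁ * (|D| ψ 1 / |G|)` is `IntAt` (QRS, HAI for `P = ⊥`) and `w (f ψ) = w ψ`: `(f ψ) 1 = ψ 1`, and `∑_(x ∈ C) ψ (x ^ m) * θ₁ x⁻¹ = ∑_(x ∈ C) ψ (x ^ m) * θ₁ (x ^ m)⁻¹` (HCM),
`x ↦ x ^ m` is a permutation of `C`. By HFX and HSM the sum of the `w ψ` over the `ψ ∈ B` with `f ψ = ψ`, i.e. `PR m ψ`, is not `InM`: some `w ψ₀` is not `InM`, hence `|D| ψ₀ 1 / |G|` is not (`mt` is `IntAt`, `InM.mul_left` or similar). -/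
def HHT_stmt : Prop :=
  ∀ (p : ℕ) (M : Ideal (integralClosure ℤ ℂ)), Setup p M → p ≠ 2 → ∀ (G : Type) [Group G] [Finite G]
    (D : Subgroup G) (x : G) (θ χ : G → ℂ), LoA p M D x θ χ → ∀ m : ℕ, Gm2 p (Nat.card G) m →
    ∃ ψ₀ ∈ Bl M (⊤ : Subgroup G) θ, PR m ψ₀ ∧ ¬ InM M ((Nat.card D : ℂ) * ψ₀ 1 / Nat.card G)

/-! ## 5. The heights -/

/-- **HNL** (short; PURE; COPY of `HTL_nag` of `helper1/LE/HTL.lean` without the squares; from NRC). -/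
def HNL_stmt : Prop :=
  ∀ (p : ℕ) (M : Ideal (integralClosure ℤ ℂ)), Setup p M → ∀ (n k : ℕ), 0 < n → ∀ P : Polynomial ℤ,
    (∀ μ ∈ primitiveRoots n ℂ, Polynomial.aeval μ P ≠ 0 ∧ IntAt M (Polynomial.aeval μ P / (p : ℂ) ^ k)) →
    (p : ℝ) ^ k * Nat.totient n ≤ ∑ μ ∈ primitiveRoots n ℂ, ‖Polynomial.aeval μ P‖

/-- **HHB** (medium; from HVP, PPL, HNL, HL1, HWT). The heights. Proof: `n = p * |D|` (a power of `p`, `u ^ n = 1`), `ζ` a primitive `n`-th root of unity. For `u ∈ D` and `P` from PPL every `μ ∈ primitiveRoots n ℂ` is `ζ ^ s`, `s < n`, `p ∤ s`, and `aeval μ P = |D| PP ψ ψ₀ (u ^ s) = (|D| ψ 1 / |G|) * (|G| PP ψ ψ₀ (u ^ s) / ψ 1)`,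
where `(|D| ψ 1 / |G|) / p ^ k` is a rational number prime to `p` (from the hypothesis on `d`, `k`), so `IntAt`, and not `0` (HVP for `u ^ s`). HNL: `p ^ k * totient n ≤ ∑_s ‖|D| PP ψ ψ₀ (u ^ s)‖`. Sum over `u ∈ D` (`u ↦ u ^ s` permutes `D`): `|D| p ^ k totient n ≤ totient n * ∑_(u ∈ D) ‖|D| PP ψ ψ₀ u‖`, so `p ^ k ≤ ∑_u ‖PP ψ ψ₀ u‖ ≤ ∑_u ‖ci u * PP‖ ≤ iI`
(`ci u ≥ 1`: HWT (2); HL1). -/
def HHB_stmt : Prop :=
  ∀ (p : ℕ) (M : Ideal (integralClosure ℤ ℂ)), Setup p M → ∀ (G : Type) [Group G] [Finite G]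
    (D : Subgroup G) (x : G) (θ χ : G → ℂ), LoA p M D x θ χ → ∀ ψ₀ ∈ Bl M (⊤ : Subgroup G) θ,
    ¬ InM M ((Nat.card D : ℂ) * ψ₀ 1 / Nat.card G) → ∀ ψ ∈ Bl M (⊤ : Subgroup G) θ, ∀ d k : ℕ, ψ 1 = d → d ≠ 0 →
    padicValNat p (Nat.card G) + k = padicValNat p (Nat.card D) + padicValNat p d → p ^ k ≤ iI M D θ

/-! **PS0** (short-medium; from HHT, HHB, HVP, PPL or ZL5 with HAX, KHT or HAI). Proof: `ψ₀` from HHT. `|D| PP ψ ψ₀ 1 = N ∈ ℤ` (PPL for `u = 1`, `n = 1`, `ζ = 1`: `N = P.eval 1`). `ψ 1 = d`, `v(|G|) ≤ v(|D|) + v(d)` (HAI for `P = ⊥`: `|D| d / |G|` is `IntAt`), so `k` as in HHB exists and `p ^ k ≤ iI < p ^ (h + 1)`, `k ≤ h`. If `p ^ (h + 1) ∣ N` then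
`N / p ^ k` is `InM`, but it is `((|D| d / |G|) / p ^ k) * (|G| PP ψ ψ₀ 1 / ψ 1)`, a product of two units (HVP for `z = 1`). -/

end Pool.Agent.BR
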