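import Pool.Agent.helper59.BR.SpecH

/-!
# Row brh:PIV (MP_baa4d7_al, project BR, block H): invariance of the contributions (compare helper49/ZB/PVB.lean)
-/

set_option autoImplicit false

namespace Pool.Agent.BR

open Pool.Agent.helper58.DC Pool.Agent.DI Pool.Agent.GR Pool.Agent.OB Pool.Agent.DR Pool.Agent.FI Pool.Agent.FI3 Pool.Agent.FI4 Pool.Agent.LE

theorem PIV_cz {p : ℕ} (hp : p.Prime) {G : Type} [Group G] [Finite G] {u : G} (hu : PEl p u) {s : ℕ} (h1 : s ≡ 1 [MOD p]) :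
    Cz (⊤ : Subgroup G) (u ^ s) = Cz (⊤ : Subgroup G) u := by
  obtain ⟨k, hk⟩ := hu
  have h2 : Nat.Coprime s p := by
    refine ((Nat.Prime.coprime_iff_not_dvd hp).2 fun h => ?_).symm
    have h3 : p ∣ 1 := (h1.dvd_iff dvd_rfl).1 h
    exact hp.one_lt.ne' (Nat.dvd_one.1 h3)
  have h3 : Nat.Coprime s (orderOf u) := (h2.pow_right k).coprime_dvd_right (orderOf_dvd_of_pow_eq_one hk)
  obtain ⟨t, ht⟩ := exists_pow_eq_self_of_coprime h3
  ext g
  have e1 : ∀ w : G, g ∈ Cz (⊤ : Subgroup G) w ↔ Commute g w := by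
    intro w
    unfold Cz
    rw [Subgroup.mem_inf, Subgroup.mem_centralizer_singleton_iff]
    exact ⟨fun h => h.2, fun h => ⟨Subgroup.mem_top g, h⟩⟩
  rw [e1, e1]
  refine ⟨fun h => ?_, fun h => h.pow_right s⟩
  have h4 := h.pow_right t
  rwa [ht] at h4

theorem PIV_az (hGP2 : GP2_stmt) {p : ℕ} (hp : p.Prime) {G : Type} [Group G] [Finite G] {m : ℕ} (hm : Gm2 p (Nat.card G) m) {ψ : G → ℂ}
    (hψ : PR m ψ) {u : G} (hu : PEl p u) {s : ℕ} (hs : s ≡ 1 [MOD p]) (η : G → ℂ) :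
    az p (Cz (⊤ : Subgroup G) u) η ψ (u ^ s) = az p (Cz (⊤ : Subgroup G) u) η ψ u := by
  unfold az
  congr 1
  refine finsum_mem_congr rfl fun v hv => ?_
  have h1 : u * v = v * u := by
    have h2 := hv.1
    unfold Cz at h2
    rw [Subgroup.mem_inf, Subgroup.mem_centralizer_singleton_iff] at h2
    exact h2.2.symm
  rw [hGP2 p hp G m hm ψ hψ u v h1 hu hv.2 s hs]

theorem PIV (hHGR : HGR_stmt) (hGP2 : GP2_stmt) : PIV_stmt := by
  intro p M hS G _ _ θ m hm ψ hψ hψm ψ' hψ' hψm' u hu s hs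
  rw [hHGR p M hS G θ (u ^ s) ψ hψ ψ' hψ', hHGR p M hS G θ u ψ hψ ψ' hψ', PIV_cz hS.pr hu hs]
  refine finsum_mem_congr rfl fun η _ => ?_
  rw [PIV_az hGP2 hS.pr hm hψm hu hs, PIV_az hGP2 hS.pr hm hψm' hu hs]

end Pool.Agent.BR
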