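import Pool.Agent.helper58.BR.AllN
import Pool.Agent.helper68.OB.ZT4
import Pool.Agent.helper59.BR.HVN
import Pool.Agent.helper59.BR.HVP
import Pool.Agent.helper59.BR.HCN
import Pool.Agent.helper95.BR.HL1
import Pool.Agent.helper63.BR.HBP
import Pool.Agent.helper67.BR.HCM
import Pool.Agent.helper23.BR.HHB
import Pool.Agent.helper73.BR.HPO
import Pool.Agent.helper71.BR.HSM
import Pool.Agent.helper18.BR.HVA
import Pool.Agent.helper26.BR.HOR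
import Pool.Agent.helper27.BR.HNL
import Pool.Agent.helper90.BR.HGR
import Pool.Agent.helper76.BR.HAI
import Pool.Agent.helper51.BR.HWT
import Pool.Agent.helper5.BR.HHT
import Pool.Agent.helper81.BR.PRO
import Pool.Agent.helper91.BR.HAX
import Pool.Agent.helper36.BR.HFX
import Pool.Agent.helper4.BR.HNR
import Pool.Agent.helper53.BR.HPT
import Pool.Agent.helper46.BR.HTO
import Pool.Agent.helper59.BR.PIV
import Pool.Agent.helper44.BR.PS0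

/-!
# Project BR (MP_baa4d7_al), block H: all rows without hypotheses

`hPS0 : PS0_stmt`, `hPRO : PRO_stmt`, `hPIV : PIV_stmt` are the output.
-/

set_option autoImplicit false

namespace Pool.Agent.BR.AllH

open Pool.Agent Pool.Agent.helper58.DC Pool.Agent.DI Pool.Agent.GR Pool.Agent.OB Pool.Agent.DR Pool.Agent.FI Pool.Agent.FI3 Pool.Agent.FI4 Pool.Agent.LE Pool.Agent.BR

theorem hZT4 : ZT4_stmt := OB.ZT4 GR.All.dGLI GR.All.dGLP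
theorem hHAX : HAX_stmt := BR.HAX AllQ1.qQRS AllQ1.qQCE AllQ1.qQEI AllZ.zZAX AllA.dBLE AllQ1.qQEK GR.All.dB2
theorem hHGR : HGR_stmt := BR.HGR hHAX AllZ.zZAX AllQ1.qQEI AllA.dBLE AllQ1.qQRS AllA.dSTC GR.All.dB2
theorem hHNR : HNR_stmt := BR.HNR AllA.dBRY AllA.dBLE AllQ1.qQEI AllA.dSTC GR.All.dB2
theorem hHOR : HOR_stmt :=
  BR.HOR GR.All.dBR0 AllA.dBRY AllA.dBLE AllQ1.qQEI AllQ1.qQCJ AllC.cFEQ GR.All.dSFC AllA.dSTC GR.All.dB2
theorem hHTO : HTO_stmt := BR.HTO hHOR AllP4.pQFU4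
theorem hHPT : HPT_stmt := BR.HPT hHGR AllC.cFEQ GR.All.dB2
theorem hHPO : HPO_stmt := BR.HPO hHGR AllZ.zZAX AllQ1.qQEI AllA.dBLE hHNR hHTO GR.All.dB2
theorem hHBP : HBP_stmt := BR.HBP
theorem hHWT : HWT_stmt := BR.HWT
theorem hPRO : PRO_stmt := BR.PRO hHBP hHWT hHPT hHPO GR.All.dB2
theorem hHL1 : HL1_stmt := BR.HL1 hHBP hHWT hHPT hHPO hHGR GR.All.dB2
theorem hHVA : HVA_stmt := BR.HVA AllZ.zZAG AllZ.zZCT
theorem hHAI : HAI_stmt := BR.HAI GR.All.dB2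
theorem hHVN : HVN_stmt :=
  BR.HVN hHVA hHAI AllZ.zZX0 AllZ.zZAX AllQ1.qQRS AllQ1.qQCE AllQ1.qQEI AllA.dSBI GR.All.dC3 GR.All.dB2
theorem hHVP : HVP_stmt := BR.HVP hHAX hHVA hHVN AllQ1.qQRS AllQ1.qQCE GR.All.dC3 GR.All.dB2 AllA.dSBI
theorem hHCN : HCN_stmt := BR.HCN AllP4.pGOA AllZ.zZTH AllQ1.qQCE GR.All.dB2
theorem hHCM : HCM_stmt := BR.HCM AllZ.zZTH AllQ1.qQCE GR.All.dB2
theorem hHSM : HSM_stmt := BR.HSM AllA.dBLE AllA.dSBI AllA.dTPR AllP4.pHTZ4 AllP4.pGOA GR.All.dB2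
theorem hHFX : HFX_stmt := BR.HFX
theorem hHHT : HHT_stmt := BR.HHT hHCN hHCM hHSM hHFX hHAI AllA.dBLE AllQ1.qQRS hZT4 GR.All.dB2
theorem hHNL : HNL_stmt := BR.HNL AllHT.hNRC
theorem hHHB : HHB_stmt := BR.HHB hHVP AllN.nPPL hHNL hHL1 hHWT GR.All.dB2
theorem hPS0 : PS0_stmt := BR.PS0 hHHT hHHB hHVP AllN.nPPL hHAI GR.All.dB2
theorem hPIV : PIV_stmt := BR.PIV hHGR AllB.lGP2

end Pool.Agent.BR.AllH
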